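import Pool.Agent.Helper70.MB.Goals

/-!
# PAIR1: pairing with the constant `1`
-/

open MeasureTheory Set Metric
open scoped ENNReal FourierTransform Topology ContDiff
open Pool.Agent.Results.MP_91ee6f_gt
open Pool.Agent.Helper70.MB

namespace Pool.Agent.Helper67.MB

/-- The integrand after the substitution. -/
noncomputable def GM {n : ℕ} (x₀ : En n) (h : En n → ℝ) (M : ℝ) (ζ : En n) : ℝ :=
  br (M⁻¹ • ζ) ^ sx n * ((starRingEnd ℂ) (hat h (M⁻¹ • ζ)) *
    (Complex.exp ((↑(-2 * Real.pi * inner ℝ x₀ (M⁻¹ • ζ)) * Complex.I)) * hat chi ζ)).re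

lemma hat_zero_eq {n : ℕ} (h : En n → ℝ) : hat h 0 = ((∫ x, h x : ℝ) : ℂ) := by
  rw [hat_eq, ← integral_complex_ofReal]
  congr 1
  ext x
  simp

lemma pair_eq (hS : CUTS) {n : ℕ} (x₀ : En n) (h : En n → ℝ) {M : ℝ} (hM : 0 < M) :
    pair h (cut x₀ M) = ∫ ζ, GM x₀ h M ζ := by
  have h1 : ∀ ξ : En n, br ξ ^ sx n * ((starRingEnd ℂ) (hat h ξ) * hat (cut x₀ M) ξ).re =
      M ^ n * GM x₀ h M (M • ξ) := by
    intro ξ
    have e1 : M⁻¹ • (M • ξ) = ξ := by rw [smul_smul, inv_mul_cancel₀ hM.ne', one_smul]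
    rw [GM, e1, hS n x₀ M hM ξ]
    have e2 : (starRingEnd ℂ) (hat h ξ) * ((M : ℂ) ^ n *
        Complex.exp ((↑(-2 * Real.pi * inner ℝ x₀ ξ) * Complex.I)) * hat chi (M • ξ)) =
        ((M ^ n : ℝ) : ℂ) * ((starRingEnd ℂ) (hat h ξ) *
          (Complex.exp ((↑(-2 * Real.pi * inner ℝ x₀ ξ) * Complex.I)) * hat chi (M • ξ))) := by
      push_cast
      ring
    rw [e2, Complex.re_ofReal_mul]
    ring
  unfold pair
  simp_rw [h1]
  rw [integral_const_mul, Measure.integral_comp_smul volume (fun y : En n => GM x₀ h M y) M]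
  rw [finrank_euclideanSpace_fin, abs_inv, abs_of_pos (pow_pos hM n), smul_eq_mul, ← mul_assoc,
    mul_inv_cancel₀ (pow_pos hM n).ne', one_mul]

lemma br_smul_le {n : ℕ} {M : ℝ} (hM : 1 ≤ M) (ζ : En n) : br (M⁻¹ • ζ) ≤ br ζ := by
  have h0 : 0 < M := lt_of_lt_of_le one_pos hM
  have h1 : ‖M⁻¹ • ζ‖ ≤ ‖ζ‖ := by
    rw [norm_smul, norm_inv, Real.norm_eq_abs, abs_of_pos h0]
    exact mul_le_of_le_one_left (norm_nonneg _) (inv_le_one_of_one_le₀ hM)
  unfold br
  have h2 : 2 * Real.pi * ‖M⁻¹ • ζ‖ ≤ 2 * Real.pi * ‖ζ‖ :=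
    mul_le_mul_of_nonneg_left h1 (by positivity)
  have h3 : 0 ≤ 2 * Real.pi * ‖M⁻¹ • ζ‖ := by positivity
  nlinarith

lemma sx_nonneg (n : ℕ) : 0 ≤ sx n := by unfold sx; positivity

lemma norm_GM_le {n : ℕ} (x₀ : En n) (h : En n → ℝ) {M : ℝ} (hM : 1 ≤ M) (ζ : En n) :
    ‖GM x₀ h M ζ‖ ≤ (∫ x, |h x|) * (br ζ ^ sx n * ‖hat chi ζ‖) := by
  unfold GM
  rw [Real.norm_eq_abs, abs_mul, abs_of_pos (br_rpow_pos _ _)]
  have h1 : br (M⁻¹ • ζ) ^ sx n ≤ br ζ ^ sx n :=
    Real.rpow_le_rpow (br_pos _).le (br_smul_le hM ζ) (sx_nonneg n)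
  have h2 : |((starRingEnd ℂ) (hat h (M⁻¹ • ζ)) *
      (Complex.exp ((↑(-2 * Real.pi * inner ℝ x₀ (M⁻¹ • ζ)) * Complex.I)) * hat chi ζ)).re| ≤
      (∫ x, |h x|) * ‖hat chi ζ‖ := by
    refine (Complex.abs_re_le_norm _).trans ?_
    rw [norm_mul, norm_mul, RCLike.norm_conj, Complex.norm_exp_ofReal_mul_I, one_mul]
    exact mul_le_mul_of_nonneg_right (norm_hat_le h _) (norm_nonneg _)
  calc br (M⁻¹ • ζ) ^ sx n * |((starRingEnd ℂ) (hat h (M⁻¹ • ζ)) *
      (Complex.exp ((↑(-2 * Real.pi * inner ℝ x₀ (M⁻¹ • ζ)) * Complex.I)) * hat chi ζ)).re|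
      ≤ br ζ ^ sx n * ((∫ x, |h x|) * ‖hat chi ζ‖) :=
        mul_le_mul h1 h2 (abs_nonneg _) (br_rpow_pos _ _).le
    _ = _ := by ring

lemma integrable_chi {n : ℕ} : Integrable (chi : En n → ℝ) :=
  (isCut_chi (n := n)).1.continuous.integrable_of_hasCompactSupport isCut_chi.2

lemma continuous_GM {n : ℕ} (x₀ : En n) {h : En n → ℝ} (hh : Integrable h) (M : ℝ) :
    Continuous (GM x₀ h M) := by
  unfold GM
  have hc : Continuous fun ζ : En n => M⁻¹ • ζ := by fun_prop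
  have h1 : Continuous fun ζ : En n => br (M⁻¹ • ζ) ^ sx n := (continuous_br_rpow (sx n)).comp hc
  have h2 : Continuous fun ζ : En n => (starRingEnd ℂ) (hat h (M⁻¹ • ζ)) :=
    Complex.continuous_conj.comp ((continuous_hat hh).comp hc)
  have h3 : Continuous fun ζ : En n =>
      Complex.exp ((↑(-2 * Real.pi * inner ℝ x₀ (M⁻¹ • ζ)) * Complex.I)) := by
    fun_prop
  have h4 : Continuous fun ζ : En n => hat (chi : En n → ℝ) ζ := continuous_hat integrable_chi
  exact h1.mul (Complex.continuous_re.comp (h2.mul (h3.mul h4)))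

lemma tendsto_GM {n : ℕ} (x₀ : En n) {h : En n → ℝ} (hh : Integrable h) (ζ : En n) :
    Filter.Tendsto (fun M : ℝ => GM x₀ h M ζ) Filter.atTop
      (𝓝 ((∫ x, h x) * (hat chi ζ).re)) := by
  have h0 : Filter.Tendsto (fun M : ℝ => M⁻¹ • ζ) Filter.atTop (𝓝 (0 : En n)) := by
    have := (tendsto_inv_atTop_zero (𝕜 := ℝ)).smul_const ζ
    simpa using this
  have hcont : Continuous fun y : En n => br y ^ sx n * ((starRingEnd ℂ) (hat h y) *
    (Complex.exp ((↑(-2 * Real.pi * inner ℝ x₀ y) * Complex.I)) * hat chi ζ)).re := by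
    have h2 : Continuous fun y : En n => (starRingEnd ℂ) (hat h y) :=
      Complex.continuous_conj.comp (continuous_hat hh)
    have h3 : Continuous fun y : En n =>
        Complex.exp ((↑(-2 * Real.pi * inner ℝ x₀ y) * Complex.I)) := by
      fun_prop
    exact (continuous_br_rpow (sx n)).mul
      (Complex.continuous_re.comp (h2.mul (h3.mul continuous_const)))
  have h1 := (hcont.tendsto 0).comp h0
  have e : br (0 : En n) ^ sx n * ((starRingEnd ℂ) (hat h 0) *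
    (Complex.exp ((↑(-2 * Real.pi * inner ℝ x₀ (0 : En n)) * Complex.I)) * hat chi ζ)).re =
      (∫ x, h x) * (hat chi ζ).re := by
    rw [hat_zero_eq, Complex.conj_ofReal]
    simp [br]
  rw [e] at h1
  exact h1

theorem pair1 : CUTF → CUTS → PAIR1 := by
  intro hF hS n _ x₀ h hh
  have hcut := hF n chi isCut_chi
  have hint : Integrable (fun ζ : En n => hat chi ζ) := by
    have := hcut.1 0
    simp only [Real.rpow_zero, one_mul] at this
    exact (integrable_norm_iff (continuous_hat integrable_chi).aestronglyMeasurable).1 this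
  have hval : ∫ ζ : En n, (∫ x, h x) * (hat chi ζ).re = ∫ x, h x := by
    rw [integral_const_mul]
    have h1 : ∫ ζ : En n, (hat chi ζ).re = (∫ ζ : En n, hat chi ζ).re :=
      (integral_re hint)
    have h2 := hcut.2.2 0
    have h3 : ∫ a : En n, hat chi a * Complex.exp ((↑(2 * Real.pi * inner ℝ a (0 : En n)) *
        Complex.I)) = ∫ a : En n, hat chi a := by
      congr 1
      ext a
      simp
    rw [h3] at h2
    rw [h1, ← h2, chi_one (by simp)]
    simp
  have hlim : Filter.Tendsto (fun M : ℝ => ∫ ζ, GM x₀ h M ζ) Filter.atTop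
      (𝓝 (∫ ζ : En n, (∫ x, h x) * (hat chi ζ).re)) := by
    refine tendsto_integral_filter_of_dominated_convergence
      (fun ζ => (∫ x, |h x|) * (br ζ ^ sx n * ‖hat chi ζ‖)) ?_ ?_ ?_ ?_
    · exact Filter.Eventually.of_forall fun M => (continuous_GM x₀ hh.2.1 M).aestronglyMeasurable
    · filter_upwards [Filter.eventually_ge_atTop (1 : ℝ)] with M hM
      exact Filter.Eventually.of_forall fun ζ => norm_GM_le x₀ h hM ζ
    · exact (hcut.1 (sx n)).const_mul _
    · exact Filter.Eventually.of_forall fun ζ => tendsto_GM x₀ hh.2.1 ζ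
  rw [hval] at hlim
  refine hlim.congr' ?_
  filter_upwards [Filter.eventually_gt_atTop (0 : ℝ)] with M hM
  exact (pair_eq hS x₀ h hM).symm

end Pool.Agent.Helper67.MB
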